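import Mathlib

set_option autoImplicit false
set_option linter.unusedSectionVars false

/-!
# When is the Chebyshev center a regularizer?

`H` is a real Hilbert space of dimension `N`, with `m` observations.
-/

namespace Pool.Agent.Results.MP_ef9ba3_an.DimensionClassification

open Module

/-- the Euclidean space `ℝ^m` -/
abbrev R (m : ℕ) := EuclideanSpace ℝ (Fin m)

section General

variable {H : Type*} [NormedAddCommGroup H] [InnerProductSpace ℝ H] {m : ℕ}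

/-- the set `K_{y,E}` of the elements of the model set `‖P f‖ ≤ ε` which are consistent with the
data: `‖y - Λ f‖ ≤ η` -/
def consistent (P : H →ₗ[ℝ] H) (Λ : H →ₗ[ℝ] R m) (ε η : ℝ) (y : R m) : Set H :=
  {f | ‖P f‖ ≤ ε ∧ ‖y - Λ f‖ ≤ η}

/-- the largest distance of the point `z` to the points of `K` -/
noncomputable def radius (K : Set H) (z : H) : ℝ :=
  sSup ((fun f => ‖f - z‖) '' K)

/-- `z` is a Chebyshev center of `K` -/
def IsChebyshevCenter (K : Set H) (z : H) : Prop :=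
  ∀ z' : H, radius K z ≤ radius K z'

/-- the regularization functional `F_τ(f) = (1 - τ) ‖P f‖ ^ 2 + τ ‖y - Λ f‖ ^ 2` -/
noncomputable def F (P : H →ₗ[ℝ] H) (Λ : H →ₗ[ℝ] R m) (y : R m) (τ : ℝ) (f : H) : ℝ :=
  (1 - τ) * ‖P f‖ ^ 2 + τ * ‖y - Λ f‖ ^ 2

/-- `z` minimises `F_τ` for some `τ ∈ [0, 1]` -/
def Regularizes (P : H →ₗ[ℝ] H) (Λ : H →ₗ[ℝ] R m) (y : R m) (z : H) : Prop :=
  ∃ τ : ℝ, 0 ≤ τ ∧ τ ≤ 1 ∧ ∀ f, F P Λ y τ z ≤ F P Λ y τ f

theorem bdd {K : Set H} {z : H} {r : ℝ} (hK : ∀ f ∈ K, ‖f - z‖ ≤ r) (z' : H) :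
    BddAbove ((fun f => ‖f - z'‖) '' K) := by
  refine ⟨r + ‖z - z'‖, ?_⟩
  rintro _ ⟨f, hf, rfl⟩
  calc ‖f - z'‖ = ‖(f - z) + (z - z')‖ := by congr 1; abel
    _ ≤ ‖f - z‖ + ‖z - z'‖ := norm_add_le _ _
    _ ≤ _ := by linarith [hK f hf]

/-- a set with two antipodal points of a ball containing it has the center of the ball as its unique
Chebyshev center -/
theorem two_points {K : Set H} {z d : H} {r : ℝ} (hd : ‖d‖ = r)
    (hA : z + d ∈ K) (hB : z - d ∈ K) (hK : ∀ f ∈ K, ‖f - z‖ ≤ r) :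
    IsChebyshevCenter K z ∧ (∀ z', IsChebyshevCenter K z' → z' = z) ∧ radius K z = r := by
  have h1 : radius K z = r := by
    refine le_antisymm (csSup_le ⟨_, ⟨z + d, hA, rfl⟩⟩ ?_) ?_
    · rintro _ ⟨f, hf, rfl⟩; exact hK f hf
    · refine le_csSup (bdd hK z) ⟨z + d, hA, ?_⟩
      simp [hd]
  have h2 : ∀ z', r ^ 2 + ‖z - z'‖ ^ 2 ≤ radius K z' ^ 2 := fun z' => by
    have a1 : ‖(z + d) - z'‖ ≤ radius K z' := le_csSup (bdd hK z') ⟨_, hA, rfl⟩
    have a2 : ‖(z - d) - z'‖ ≤ radius K z' := le_csSup (bdd hK z') ⟨_, hB, rfl⟩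
    have a3 := parallelogram_law_with_norm ℝ (z - z') d
    rw [show z - z' + d = (z + d) - z' by abel, show z - z' - d = (z - d) - z' by abel, hd] at a3
    have a4 := mul_self_le_mul_self (norm_nonneg _) a1
    have a5 := mul_self_le_mul_self (norm_nonneg _) a2
    nlinarith
  have h3 : ∀ z', 0 ≤ radius K z' := fun z' =>
    (norm_nonneg _).trans (le_csSup (bdd hK z') ⟨_, hA, rfl⟩)
  refine ⟨fun z' => ?_, fun z' hz' => ?_, h1⟩
  · rw [h1]
    refine abs_le_of_sq_le_sq' ?_ (h3 z') |>.2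
    nlinarith [h2 z', sq_nonneg ‖z - z'‖]
  · have a1 := hz' z
    rw [h1] at a1
    have a2 := pow_le_pow_left₀ (h3 z') a1 2
    have a3 : ‖z - z'‖ ^ 2 ≤ 0 := by linarith [h2 z']
    have a4 : ‖z - z'‖ = 0 := pow_eq_zero_iff two_ne_zero |>.1 (le_antisymm a3 (sq_nonneg _))
    exact (sub_eq_zero.1 (norm_eq_zero.1 a4)).symm

theorem not_regularizes {P : H →ₗ[ℝ] H} {Λ : H →ₗ[ℝ] R m} {y : R m} {z f : H}
    (h1 : ‖P f‖ ^ 2 < ‖P z‖ ^ 2) (h2 : ‖y - Λ f‖ ^ 2 < ‖y - Λ z‖ ^ 2) :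
    ¬ Regularizes P Λ y z := by
  rintro ⟨τ, t0, t1, h⟩
  have := h f
  unfold F at this
  rcases t0.eq_or_lt with rfl | t0
  · linarith
  · nlinarith [mul_nonneg (sub_nonneg.2 t1) (sub_nonneg.2 h1.le), mul_pos t0 (sub_pos.2 h2)]

theorem sq_convex (x y : H) {a b : ℝ} (ha : 0 ≤ a) (hb : 0 ≤ b) (hab : a + b = 1) :
    ‖a • x + b • y‖ ^ 2 ≤ a * ‖x‖ ^ 2 + b * ‖y‖ ^ 2 := by
  have h1 : ‖a • x + b • y‖ ≤ a * ‖x‖ + b * ‖y‖ := by
    refine (norm_add_le _ _).trans ?_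
    rw [norm_smul, norm_smul, Real.norm_of_nonneg ha, Real.norm_of_nonneg hb]
  have h2 := pow_le_pow_left₀ (norm_nonneg _) h1 2
  obtain rfl : b = 1 - a := by linarith
  nlinarith [mul_nonneg (mul_nonneg ha hb) (sq_nonneg (‖x‖ - ‖y‖))]

/-- a weakly Pareto optimal point minimises some `F_τ` -/
theorem pareto {P : H →ₗ[ℝ] H} {Λ : H →ₗ[ℝ] R m} {y : R m} {z : H}
    (h : ∀ f, ‖P f‖ ^ 2 < ‖P z‖ ^ 2 → ‖y - Λ z‖ ^ 2 ≤ ‖y - Λ f‖ ^ 2) : Regularizes P Λ y z := by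
  set s0 := ‖P z‖ ^ 2 with hs0
  set t0 := ‖y - Λ z‖ ^ 2 with ht0
  let S : Set (ℝ × ℝ) := {p | ∃ f, ‖P f‖ ^ 2 ≤ p.1 ∧ ‖y - Λ f‖ ^ 2 ≤ p.2}
  let Q : Set (ℝ × ℝ) := Set.Iio s0 ×ˢ Set.Iio t0
  have hS : Convex ℝ S := by
    rintro ⟨p1, p2⟩ ⟨f, f1, f2⟩ ⟨q1, q2⟩ ⟨g, g1, g2⟩ a b ha hb hab
    refine ⟨a • f + b • g, ?_, ?_⟩
    · have := sq_convex (P f) (P g) ha hb hab
      simp only [map_add, map_smul, Prod.fst_add, Prod.smul_fst, smul_eq_mul] at this ⊢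
      simp only at f1 g1
      nlinarith [mul_le_mul_of_nonneg_left f1 ha, mul_le_mul_of_nonneg_left g1 hb]
    · have := sq_convex (y - Λ f) (y - Λ g) ha hb hab
      have e : y - Λ (a • f + b • g) = a • (y - Λ f) + b • (y - Λ g) := by
        rw [map_add, map_smul, map_smul, smul_sub, smul_sub]
        have : y = a • y + b • y := by rw [← add_smul, hab, one_smul]
        nth_rewrite 1 [this]
        abel
      rw [e]
      simp only [Prod.snd_add, Prod.smul_snd, smul_eq_mul]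
      simp only at f2 g2
      nlinarith [mul_le_mul_of_nonneg_left f2 ha, mul_le_mul_of_nonneg_left g2 hb]
  have hQ : Convex ℝ Q := (convex_Iio s0).prod (convex_Iio t0)
  have hQo : IsOpen Q := isOpen_Iio.prod isOpen_Iio
  have hd : Disjoint Q S := by
    rw [Set.disjoint_left]
    rintro ⟨p1, p2⟩ ⟨q1, q2⟩ ⟨f, f1, f2⟩
    simp only [Set.mem_Iio] at q1 q2 f1 f2
    have := h f (f1.trans_lt q1)
    linarith
  obtain ⟨φ, u, hu1, hu2⟩ := geometric_hahn_banach_open hQ hQo hS hd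
  set a := φ (1, 0) with ha
  set b := φ (0, 1) with hb
  have hφ : ∀ s t : ℝ, φ (s, t) = a * s + b * t := fun s t => by
    have : ((s, t) : ℝ × ℝ) = s • (1, 0) + t • (0, 1) := by simp
    rw [this, map_add, map_smul, map_smul, smul_eq_mul, smul_eq_mul]; ring
  have hS' : ∀ f : H, ∀ i j : ℝ, 0 ≤ i → 0 ≤ j → u ≤ a * (‖P f‖ ^ 2 + i) + b * (‖y - Λ f‖ ^ 2 + j) := by
    intro f i j hi hj
    rw [← hφ]
    exact hu2 _ ⟨f, by simp only; linarith, by simp only; linarith⟩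
  have hQ' : ∀ δ : ℝ, 0 < δ → a * (s0 - δ) + b * (t0 - δ) < u := by
    intro δ hδ
    rw [← hφ]
    exact hu1 _ ⟨by simp only [Set.mem_Iio]; linarith, by simp only [Set.mem_Iio]; linarith⟩
  have hu : a * s0 + b * t0 ≤ u := by
    refine le_of_forall_pos_lt_add fun δ hδ => ?_
    have hc : 0 < |a| + |b| + 1 := by positivity
    have := hQ' (δ / (|a| + |b| + 1)) (by positivity)
    have h1 : (a + b) * (δ / (|a| + |b| + 1)) ≤ δ := by
      rw [← mul_div_assoc, div_le_iff₀ hc]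
      nlinarith [le_abs_self a, le_abs_self b]
    nlinarith
  have ha0 : 0 ≤ a := by
    by_contra hn
    push Not at hn
    have := hS' z (((a * s0 + b * t0) - u + 1) / (-a)) 0 (by
      refine div_nonneg ?_ (by linarith)
      have := hS' z 0 0 le_rfl le_rfl
      simp only [add_zero, ← hs0, ← ht0] at this
      linarith) le_rfl
    rw [← hs0, ← ht0, add_zero, mul_add] at this
    have hn' := hn.ne
    have e : a * (((a * s0 + b * t0) - u + 1) / (-a)) = -((a * s0 + b * t0) - u + 1) := by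
      field_simp
    rw [e] at this
    linarith
  have hb0 : 0 ≤ b := by
    by_contra hn
    push Not at hn
    have := hS' z 0 (((a * s0 + b * t0) - u + 1) / (-b)) le_rfl (by
      refine div_nonneg ?_ (by linarith)
      have := hS' z 0 0 le_rfl le_rfl
      simp only [add_zero, ← hs0, ← ht0] at this
      linarith)
    rw [← hs0, ← ht0, add_zero, mul_add] at this
    have hn' := hn.ne
    have e : b * (((a * s0 + b * t0) - u + 1) / (-b)) = -((a * s0 + b * t0) - u + 1) := by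
      field_simp
    rw [e] at this
    linarith
  have hab : 0 < a + b := by
    have h1 := hQ' 1 one_pos
    have h2 := hS' z 0 0 le_rfl le_rfl
    simp only [add_zero, ← hs0, ← ht0] at h2
    nlinarith
  refine ⟨b / (a + b), by positivity, (div_le_one hab).2 (by linarith), fun f => ?_⟩
  unfold F
  rw [← hs0, ← ht0]
  have h3 := hS' f 0 0 le_rfl le_rfl
  simp only [add_zero] at h3
  have e1 : 1 - b / (a + b) = a / (a + b) := by field_simp; ring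
  rw [e1]
  have h4 : a * s0 + b * t0 ≤ a * ‖P f‖ ^ 2 + b * ‖y - Λ f‖ ^ 2 := hu.trans h3
  have e2 : ∀ s t : ℝ, a / (a + b) * s + b / (a + b) * t = (a * s + b * t) / (a + b) := by
    intro s t; ring
  rw [e2, e2]
  exact div_le_div_of_nonneg_right h4 hab.le

/-- `z` is an element of smallest norm of the set `{f : ‖y - Λ f‖ ≤ η}` -/
def IsMinNorm (Λ : H →ₗ[ℝ] R m) (η : ℝ) (y : R m) (z : H) : Prop :=
  ‖y - Λ z‖ ≤ η ∧ ∀ f, ‖y - Λ f‖ ≤ η → ‖z‖ ≤ ‖f‖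

/-- `z` is the only Chebyshev center of `K` -/
def IsUniqueCenter (K : Set H) (z : H) : Prop :=
  IsChebyshevCenter K z ∧ ∀ z', IsChebyshevCenter K z' → z' = z

/-- the linear map `Λ` satisfies `Λ Λ* = Id`, where `J` is the adjoint `Λ*` -/
def Coisometric (Λ : H →ₗ[ℝ] R m) : Prop :=
  ∃ J : R m →ₗ[ℝ] H, (∀ x f, inner ℝ (J x) f = inner ℝ x (Λ f)) ∧ ∀ x, Λ (J x) = x

/-- The statement of Q1 for the data `(P, Λ, ε, η, y)`: if `ε, η > 0`, `ker P ∩ ker Λ = 0` and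
`K_{y,E}` is nonempty then the Chebyshev center of `K_{y,E}` minimises `F_τ` for some
`τ ∈ [0, 1]`. -/
def Q1Holds (P : H →ₗ[ℝ] H) (Λ : H →ₗ[ℝ] R m) (ε η : ℝ) (y : R m) : Prop :=
  0 < ε → 0 < η → LinearMap.ker P ⊓ LinearMap.ker Λ = ⊥ → (consistent P Λ ε η y).Nonempty →
    ∀ z, IsChebyshevCenter (consistent P Λ ε η y) z → Regularizes P Λ y z

/-- **The isometric case.** -/
theorem isometric [FiniteDimensional ℝ H] {P : H →ₗ[ℝ] H} {Λ : H →ₗ[ℝ] R m} {ε η : ℝ} {y : R m}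
    (hP : ∀ f, ‖P f‖ = ‖f‖) (hΛ : LinearMap.ker Λ ≠ ⊥) (hne : (consistent P Λ ε η y).Nonempty) :
    ∃ z, IsMinNorm Λ η y z ∧ IsUniqueCenter (consistent P Λ ε η y) z ∧
      radius (consistent P Λ ε η y) z = √(ε ^ 2 - ‖z‖ ^ 2) ∧ Regularizes P Λ y z := by
  have hcont : Continuous Λ := Λ.continuous_of_finiteDimensional
  obtain ⟨f0, hf0, hf0'⟩ := hne
  rw [hP] at hf0
  let C : Set H := {f | ‖y - Λ f‖ ≤ η}
  have hC : Convex ℝ C := by
    intro f hf g hg a b ha hb hab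
    have e : y - Λ (a • f + b • g) = a • (y - Λ f) + b • (y - Λ g) := by
      rw [map_add, map_smul, map_smul, smul_sub, smul_sub]
      have : y = a • y + b • y := by rw [← add_smul, hab, one_smul]
      nth_rewrite 1 [this]
      abel
    change ‖y - Λ (a • f + b • g)‖ ≤ η
    rw [e]
    refine (norm_add_le _ _).trans ?_
    rw [norm_smul, norm_smul, Real.norm_of_nonneg ha, Real.norm_of_nonneg hb]
    have hf' : ‖y - Λ f‖ ≤ η := hf
    have hg' : ‖y - Λ g‖ ≤ η := hg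
    have h1 := mul_le_mul_of_nonneg_left hf' ha
    have h2 := mul_le_mul_of_nonneg_left hg' hb
    have h3 : a * η + b * η = η := by rw [← add_mul, hab, one_mul]
    linarith
  have hCc : IsClosed C := isClosed_le (by fun_prop) continuous_const
  obtain ⟨z, hz, hmin⟩ := exists_norm_eq_iInf_of_complete_convex ⟨f0, hf0'⟩ hCc.isComplete hC (0 : H)
  have hvar := (norm_eq_iInf_iff_real_inner_le_zero hC hz).1 hmin
  simp only [zero_sub, inner_neg_left] at hvar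
  have hle : ∀ f, ‖y - Λ f‖ ≤ η → ‖z‖ ≤ ‖f‖ := fun f hf => by
    have h1 := hvar f hf
    rw [inner_sub_right, real_inner_self_eq_norm_sq] at h1
    have h2 := real_inner_le_norm z f
    by_contra hn
    push Not at hn
    nlinarith [norm_nonneg z, norm_nonneg f]
  obtain ⟨g, hg, hg0⟩ := (Submodule.ne_bot_iff _).1 hΛ
  have hgz : inner ℝ z g = 0 := by
    have h1 := hvar (z + g) (by
      change ‖y - Λ (z + g)‖ ≤ η
      rw [map_add, LinearMap.mem_ker.1 hg, add_zero]; exact hz)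
    have h2 := hvar (z - g) (by
      change ‖y - Λ (z - g)‖ ≤ η
      rw [map_sub, LinearMap.mem_ker.1 hg, sub_zero]; exact hz)
    simp only [add_sub_cancel_left, sub_sub_cancel_left, inner_neg_right] at h1 h2
    linarith
  have hzε : ‖z‖ ^ 2 ≤ ε ^ 2 := pow_le_pow_left₀ (norm_nonneg _) ((hle f0 hf0').trans hf0) 2
  have hε : 0 ≤ ε := (norm_nonneg _).trans hf0
  set r := √(ε ^ 2 - ‖z‖ ^ 2) with hr
  have hr2 : r ^ 2 = ε ^ 2 - ‖z‖ ^ 2 := Real.sq_sqrt (by linarith)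
  have hr0 : 0 ≤ r := Real.sqrt_nonneg _
  have hgn : ‖g‖ ≠ 0 := norm_ne_zero_iff.2 hg0
  set d := (r / ‖g‖) • g with hd
  have hdn : ‖d‖ = r := by
    rw [hd, norm_smul, Real.norm_of_nonneg (div_nonneg hr0 (norm_nonneg _))]
    field_simp
  have hdk : Λ d = 0 := by rw [hd, map_smul, LinearMap.mem_ker.1 hg, smul_zero]
  have hdz : inner ℝ z d = 0 := by rw [hd, inner_smul_right, hgz, mul_zero]
  have hA : z + d ∈ consistent P Λ ε η y := by
    refine ⟨?_, ?_⟩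
    · rw [hP]
      refine abs_le_of_sq_le_sq' ?_ hε |>.2
      rw [norm_add_sq_real, hdz, hdn, hr2]; linarith
    · rw [map_add, hdk, add_zero]; exact hz
  have hB : z - d ∈ consistent P Λ ε η y := by
    refine ⟨?_, ?_⟩
    · rw [hP]
      refine abs_le_of_sq_le_sq' ?_ hε |>.2
      rw [norm_sub_sq_real, hdz, hdn, hr2]; linarith
    · rw [map_sub, hdk, sub_zero]; exact hz
  have hK : ∀ f ∈ consistent P Λ ε η y, ‖f - z‖ ≤ r := fun f hf => by
    refine abs_le_of_sq_le_sq' ?_ hr0 |>.2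
    rw [norm_sub_sq_real, hr2]
    have h1 := hvar f hf.2
    rw [inner_sub_right, real_inner_self_eq_norm_sq, real_inner_comm] at h1
    have h2 : ‖f‖ ^ 2 ≤ ε ^ 2 := pow_le_pow_left₀ (norm_nonneg _) (by rw [← hP f]; exact hf.1) 2
    linarith
  obtain ⟨k1, k2, k3⟩ := two_points hdn hA hB hK
  refine ⟨z, ⟨hz, hle⟩, ⟨k1, k2⟩, k3, pareto fun f hf => ?_⟩
  rw [hP, hP] at hf
  by_contra hn
  push Not at hn
  have h1 : ‖y - Λ f‖ < ‖y - Λ z‖ := lt_of_pow_lt_pow_left₀ 2 (norm_nonneg _) hn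
  have h2 := hle f (h1.le.trans hz)
  have := pow_le_pow_left₀ (norm_nonneg _) h2 2
  linarith

end General

/-! ### One dimension -/

theorem norm_R1 (x : R 1) : ‖x‖ = |x 0| := by
  rw [EuclideanSpace.norm_eq, Fin.sum_univ_one, Real.norm_eq_abs, sq_abs, Real.sqrt_sq_eq_abs]

theorem oneDim {m : ℕ} (P : R 1 →ₗ[ℝ] R 1) (Λ : R 1 →ₗ[ℝ] R m) (ε η : ℝ) (y : R m)
    (hne : (consistent P Λ ε η y).Nonempty) (z : R 1)
    (hz : IsChebyshevCenter (consistent P Λ ε η y) z) : Regularizes P Λ y z := by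
  let e : R 1 := EuclideanSpace.single 0 1
  have hx : ∀ x : R 1, x = (x 0) • e := fun x => by
    ext i; fin_cases i; simp [e]
  have hPx : ∀ x, ‖P x‖ = |x 0| * ‖P e‖ := fun x => by
    nth_rewrite 1 [hx x]; rw [map_smul, norm_smul, Real.norm_eq_abs]
  set α := ‖P e‖ with hα
  set β := ‖Λ e‖ ^ 2 with hβ
  set γ := inner ℝ y (Λ e) with hγ
  have hL : ∀ x : R 1, ‖y - Λ x‖ ^ 2 = ‖y‖ ^ 2 + (β * x 0 ^ 2 - 2 * γ * x 0) := fun x => by
    nth_rewrite 1 [hx x]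
    rw [map_smul, norm_sub_sq_real, inner_smul_right, norm_smul, Real.norm_eq_abs, mul_pow, sq_abs]
    ring
  have hβ0 : 0 ≤ β := sq_nonneg _
  have hα0 : 0 ≤ α := norm_nonneg _
  refine pareto fun f hf => ?_
  by_contra hn
  push Not at hn
  rw [hPx, hPx, mul_pow, mul_pow, sq_abs, sq_abs] at hf
  rw [hL, hL] at hn
  have hαp : 0 < α := by
    rcases hα0.eq_or_lt with h | h
    · rw [← h] at hf; norm_num at hf
    · exact h
  have h1 : f 0 ^ 2 < z 0 ^ 2 := lt_of_mul_lt_mul_right hf (sq_nonneg α)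
  have h2 : β * f 0 ^ 2 - 2 * γ * f 0 < β * z 0 ^ 2 - 2 * γ * z 0 := by linarith
  set d := z 0 - f 0 with hd
  have hd0 : d ≠ 0 := by
    intro h
    have : z 0 = f 0 := by linarith
    rw [this] at h1; exact lt_irrefl _ h1
  have hd2 : 0 < d ^ 2 := by positivity
  have h3 : 0 < d * z 0 := by nlinarith
  have h4 : 0 < d * (β * z 0 - γ) := by nlinarith [mul_nonneg hβ0 hd2.le]
  obtain ⟨μ, hμ, hμ1, hμ2⟩ : ∃ μ : ℝ, 0 < μ ∧ μ * d ^ 2 ≤ 2 * (d * z 0) ∧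
      μ * (β * d ^ 2) ≤ 2 * (d * (β * z 0 - γ)) := by
    refine ⟨min (2 * (d * z 0) / d ^ 2) (2 * (d * (β * z 0 - γ)) / (β * d ^ 2 + 1)), ?_, ?_, ?_⟩
    · exact lt_min (by positivity) (by positivity)
    · refine (mul_le_mul_of_nonneg_right (min_le_left _ _) hd2.le).trans ?_
      rw [div_mul_cancel₀ _ hd2.ne']
    · refine (mul_le_mul_of_nonneg_right (min_le_right _ _) (by positivity)).trans ?_
      rw [div_mul_eq_mul_div, div_le_iff₀ (by positivity)]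
      nlinarith
  set K := consistent P Λ ε η y with hK
  have hmem : ∀ x : R 1, x ∈ K ↔ (|x 0| * α ≤ ε ∧ ‖y - Λ x‖ ≤ η) := fun x => by
    rw [hK, ← hPx]; rfl
  have hε : 0 ≤ ε := by
    obtain ⟨x, hx1, -⟩ := hne; exact (norm_nonneg _).trans hx1
  have hbd : ∀ w : R 1, BddAbove ((fun x => ‖x - w‖) '' K) := fun w => by
    refine ⟨ε / α + ‖w‖, ?_⟩
    rintro _ ⟨x, hx', rfl⟩
    refine (norm_sub_le _ _).trans (add_le_add ?_ le_rfl)
    rw [norm_R1, le_div_iff₀ hαp]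
    exact ((hmem x).1 hx').1
  -- the near side of `z` is longer
  have hrefl : ∀ (x : R 1) (s : ℝ), x ∈ K → x 0 = z 0 + s * d → 0 ≤ s →
      ∃ x' ∈ K, x' 0 = z 0 - (s + μ) * d := by
    intro x s hxK hxs hs
    refine ⟨(z 0 - (s + μ) * d) • e, ?_, by simp [e]⟩
    have e0 : ((z 0 - (s + μ) * d) • e) 0 = z 0 - (s + μ) * d := by simp [e]
    rw [hmem] at hxK ⊢
    constructor
    · refine le_trans (mul_le_mul_of_nonneg_right ?_ hα0) hxK.1
      rw [e0]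
      refine sq_le_sq.1 ?_
      rw [hxs]
      nlinarith [mul_nonneg (by positivity : (0 : ℝ) ≤ 2 * s + μ) (sub_nonneg.2 hμ1)]
    · refine le_trans ?_ hxK.2
      refine abs_le_of_sq_le_sq' ?_ (norm_nonneg _) |>.2
      rw [hL, hL, e0, hxs]
      nlinarith [mul_nonneg (by positivity : (0 : ℝ) ≤ 2 * s + μ) (sub_nonneg.2 hμ2)]
  have hR : ∀ x ∈ K, |x 0 - z 0| ≤ radius K z := fun x hx' => by
    have : ‖x - z‖ ≤ radius K z := le_csSup (hbd z) ⟨x, hx', rfl⟩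
    rwa [norm_R1, PiLp.sub_apply] at this
  set r := radius K z / |d| with hr
  have hda : 0 < |d| := abs_pos.2 hd0
  have hs : ∀ x ∈ K, ∃ s, x 0 = z 0 + s * d ∧ |s| ≤ r ∧ (0 ≤ s → s + μ ≤ r) := by
    intro x hx'
    refine ⟨(x 0 - z 0) / d, by field_simp; ring, ?_, fun hs => ?_⟩
    · rw [abs_div, hr]
      exact div_le_div_of_nonneg_right (hR x hx') hda.le
    · obtain ⟨x', hx1, hx2⟩ := hrefl x _ hx' (by field_simp; ring) hs
      have := hR x' hx1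
      rw [hx2, show z 0 - ((x 0 - z 0) / d + μ) * d - z 0 = -(((x 0 - z 0) / d + μ) * d) by ring,
        abs_neg, abs_mul, abs_of_nonneg (by positivity)] at this
      rw [hr, le_div_iff₀ hda]
      exact this
  have hr0 : 0 < r := by
    obtain ⟨x, hx'⟩ := hne
    obtain ⟨s, -, s2, s3⟩ := hs x hx'
    rcases lt_or_ge s 0 with h | h
    · exact (abs_pos.2 h.ne).trans_le s2
    · linarith [s3 h]
  set δ := min (μ / 2) (r / 2) with hδ
  have hδ0 : 0 < δ := lt_min (by positivity) (by positivity)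
  have hδ1 : δ ≤ μ / 2 := min_le_left _ _
  have hδ2 : δ ≤ r / 2 := min_le_right _ _
  have hz' := hz ((z 0 - δ * d) • e)
  have hle : radius K ((z 0 - δ * d) • e) ≤ (r - δ) * |d| := by
    obtain ⟨x1, hx1⟩ := hne
    refine csSup_le ⟨_, ⟨x1, hx1, rfl⟩⟩ ?_
    rintro _ ⟨x, hx', rfl⟩
    obtain ⟨s, s1, s2, s3⟩ := hs x hx'
    have e0 : ((z 0 - δ * d) • e) 0 = z 0 - δ * d := by simp [e]
    change ‖x - (z 0 - δ * d) • e‖ ≤ _
    rw [norm_R1, PiLp.sub_apply, e0, s1, show z 0 + s * d - (z 0 - δ * d) = (s + δ) * d by ring,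
      abs_mul]
    refine mul_le_mul_of_nonneg_right ?_ hda.le
    rw [abs_le] at s2 ⊢
    rcases lt_or_ge s 0 with h | h
    · constructor <;> linarith
    · have := s3 h
      constructor <;> linarith
  have hrd : radius K z = r * |d| := by rw [hr]; field_simp
  rw [hrd] at hz'
  nlinarith [mul_pos hδ0 hda]

/-! ### The examples -/

/-- the point `(a, b, 0, …, 0)` -/
noncomputable def pt (n : ℕ) (a b : ℝ) : R n :=
  WithLp.toLp 2 fun i => if i.val = 0 then a else if i.val = 1 then b else 0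

/-- `(f_0, f_1, …) ↦ (2 f_0 + f_1, 4 f_1 - 2 f_0, 5 f_2, 5 f_3, …)` -/
noncomputable def P0 (k : ℕ) : R (k + 2) →ₗ[ℝ] R (k + 2) where
  toFun f := WithLp.toLp 2 (Fin.cons (2 * f 0 + f 1) (Fin.cons (4 * f 1 - 2 * f 0)
    fun j : Fin k => 5 * f j.succ.succ) : Fin (k + 2) → ℝ)
  map_add' f g := by
    ext i
    refine Fin.cases ?_ (fun i => Fin.cases ?_ (fun i => ?_) i) i <;> simp <;> ring
  map_smul' c f := by
    ext i
    refine Fin.cases ?_ (fun i => Fin.cases ?_ (fun i => ?_) i) i <;> simp <;> ring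

/-- the first `m` coordinates, filled up by zeros if there are fewer -/
noncomputable def L0 (n m : ℕ) : R n →ₗ[ℝ] R m where
  toFun f := WithLp.toLp 2 fun i => if h : i.val < n then f ⟨i, h⟩ else 0
  map_add' f g := by
    ext i; simp only [PiLp.add_apply]; split_ifs <;> simp
  map_smul' c f := by
    ext i; simp only [PiLp.smul_apply, RingHom.id_apply]; split_ifs <;> simp

theorem sq_split {k : ℕ} (f : R (k + 2)) :
    ‖f‖ ^ 2 = f 0 ^ 2 + f 1 ^ 2 + ∑ j : Fin k, f j.succ.succ ^ 2 := by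
  rw [EuclideanSpace.norm_sq_eq, Fin.sum_univ_succ, Fin.sum_univ_succ]
  simp only [Real.norm_eq_abs, sq_abs]
  rw [Fin.succ_zero_eq_one]
  ring

theorem P0_sq {k : ℕ} (f : R (k + 2)) : ‖P0 k f‖ ^ 2 =
    (2 * f 0 + f 1) ^ 2 + (4 * f 1 - 2 * f 0) ^ 2 + 25 * ∑ j : Fin k, f j.succ.succ ^ 2 := by
  rw [sq_split, Finset.mul_sum]
  congr 1
  refine Finset.sum_congr rfl fun j _ => ?_
  simp [P0]; ring

theorem pt_zero {k : ℕ} (a b : ℝ) : pt (k + 2) a b 0 = a := by simp [pt]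
theorem pt_one {k : ℕ} (a b : ℝ) : pt (k + 2) a b 1 = b := by simp [pt]
theorem pt_rest {k : ℕ} (a b : ℝ) (j : Fin k) : pt (k + 2) a b j.succ.succ = 0 := by simp [pt]

theorem pt_sq {k : ℕ} (a b : ℝ) : ‖pt (k + 2) a b‖ ^ 2 = a ^ 2 + b ^ 2 := by
  rw [sq_split, pt_zero, pt_one]; simp [pt_rest]

theorem pt_sq_one (a b : ℝ) : ‖pt 1 a b‖ ^ 2 = a ^ 2 := by
  rw [EuclideanSpace.norm_sq_eq, Fin.sum_univ_one]; simp [pt]

theorem pt_sub (n : ℕ) (a b c d : ℝ) : pt n a b - pt n c d = pt n (a - c) (b - d) := by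
  ext i; simp only [pt, PiLp.sub_apply]; split_ifs <;> simp

theorem pt_add (n : ℕ) (a b c d : ℝ) : pt n a b + pt n c d = pt n (a + c) (b + d) := by
  ext i; simp only [pt, PiLp.add_apply]; split_ifs <;> simp

theorem L0_pt {k m : ℕ} (a b : ℝ) : L0 (k + 2) m (pt (k + 2) a b) = pt m a b := by
  ext i
  simp only [L0, pt, LinearMap.coe_mk, AddHom.coe_mk]
  split_ifs <;> first | rfl | omega

theorem L0_ge {n m : ℕ} (h : n ≤ m) (f : R n) : ‖L0 n m f‖ = ‖f‖ := by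
  obtain ⟨j, rfl⟩ := Nat.exists_eq_add_of_le h
  rw [EuclideanSpace.norm_eq, EuclideanSpace.norm_eq, Fin.sum_univ_add]
  congr 1
  simp [L0]

theorem L0_coord {k m : ℕ} (hm : 1 ≤ m) (f : R (k + 2)) : f 0 ^ 2 ≤ ‖L0 (k + 2) m f‖ ^ 2 := by
  obtain ⟨j, rfl⟩ : ∃ j, m = j + 1 := ⟨m - 1, by omega⟩
  rw [EuclideanSpace.norm_sq_eq, Fin.sum_univ_succ]
  have : ‖L0 (k + 2) (j + 1) f 0‖ ^ 2 = f 0 ^ 2 := by
    simp [L0]
  rw [this]
  have : 0 ≤ ∑ i : Fin j, ‖L0 (k + 2) (j + 1) f i.succ‖ ^ 2 := by positivity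
  linarith

/-- the certificate -/
theorem core {k : ℕ} (f : R (k + 2)) (h1 : ‖P0 k f‖ ^ 2 ≤ 68) (h2 : 0 ≤ f 0) :
    ‖f - pt (k + 2) (3 / 2) 0‖ ≤ 5 / 2 := by
  refine abs_le_of_sq_le_sq' ?_ (by norm_num) |>.2
  rw [sq_split]
  simp only [PiLp.sub_apply, pt_zero, pt_one, pt_rest, sub_zero]
  rw [P0_sq] at h1
  set G := ∑ j : Fin k, f j.succ.succ ^ 2
  have hG : 0 ≤ G := by positivity
  have h3 : 3 * f 0 + 4 * f 1 ≤ 17 := by
    nlinarith [sq_nonneg (2 * f 0 + f 1 - 8), sq_nonneg (2 * f 1 - f 0 - 1)]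
  nlinarith [mul_nonneg (sub_nonneg.2 h3) h2]

theorem P0_inj {k : ℕ} (f : R (k + 2)) (h : P0 k f = 0) : f = 0 := by
  have h1 := P0_sq f
  rw [h, norm_zero] at h1
  have hG : 0 ≤ ∑ j : Fin k, f j.succ.succ ^ 2 := by positivity
  have h2 : ‖f‖ ^ 2 = 0 := by
    rw [sq_split]
    nlinarith [sq_nonneg (2 * f 0 + f 1), sq_nonneg (4 * f 1 - 2 * f 0)]
  simpa using h2

theorem pt_P0 {k : ℕ} (a b : ℝ) :
    ‖P0 k (pt (k + 2) a b)‖ ^ 2 = (2 * a + b) ^ 2 + (4 * b - 2 * a) ^ 2 := by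
  rw [P0_sq, pt_zero, pt_one]; simp [pt_rest]

theorem d_norm {k : ℕ} : ‖pt (k + 2) (-(3 / 2)) (-2)‖ = 5 / 2 := by
  have h := pt_sq (k := k) (-(3 / 2)) (-2)
  have h2 : ‖pt (k + 2) (-(3 / 2)) (-2)‖ ^ 2 = (5 / 2) ^ 2 := by rw [h]; norm_num
  exact (pow_left_inj₀ (norm_nonneg _) (by norm_num) two_ne_zero).1 h2

theorem exampleA (k m : ℕ) (hm : 1 ≤ m) :
    LinearMap.ker (P0 k) ⊓ LinearMap.ker (L0 (k + 2) m) = ⊥ ∧
    (consistent (P0 k) (L0 (k + 2) m) (√68) 5 (pt m 5 (-2))).Nonempty ∧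
    IsChebyshevCenter (consistent (P0 k) (L0 (k + 2) m) (√68) 5 (pt m 5 (-2)))
      (pt (k + 2) (3 / 2) 0) ∧
    ¬ Regularizes (P0 k) (L0 (k + 2) m) (pt m 5 (-2)) (pt (k + 2) (3 / 2) 0) := by
  have hK : ∀ f, f ∈ consistent (P0 k) (L0 (k + 2) m) (√68) 5 (pt m 5 (-2)) ↔
      ‖P0 k f‖ ^ 2 ≤ 68 ∧ ‖pt m 5 (-2) - L0 (k + 2) m f‖ ^ 2 ≤ 25 := fun f => by
    refine and_congr ?_ ?_
    · rw [Real.le_sqrt (norm_nonneg _) (by norm_num)]
    · rw [show (25 : ℝ) = 5 ^ 2 by norm_num, sq_le_sq₀ (norm_nonneg _) (by norm_num)]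
  have hm2 : ∀ a b : ℝ, ‖pt m a b‖ ^ 2 ≤ a ^ 2 + b ^ 2 := fun a b => by
    rcases Nat.lt_or_ge m 2 with h | h
    · obtain rfl : m = 1 := by omega
      rw [pt_sq_one]; nlinarith [sq_nonneg b]
    · obtain ⟨j, rfl⟩ : ∃ j, m = j + 2 := ⟨m - 2, by omega⟩
      rw [pt_sq]
  have hA : pt (k + 2) (3 / 2) 0 + pt (k + 2) (-(3 / 2)) (-2) ∈
      consistent (P0 k) (L0 (k + 2) m) (√68) 5 (pt m 5 (-2)) := by
    rw [hK, pt_add, pt_P0, L0_pt, pt_sub]
    refine ⟨by norm_num, (hm2 _ _).trans (by norm_num)⟩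
  have hB : pt (k + 2) (3 / 2) 0 - pt (k + 2) (-(3 / 2)) (-2) ∈
      consistent (P0 k) (L0 (k + 2) m) (√68) 5 (pt m 5 (-2)) := by
    rw [hK, pt_sub, pt_P0, L0_pt, pt_sub]
    refine ⟨by norm_num, (hm2 _ _).trans (by norm_num)⟩
  refine ⟨?_, ⟨_, hA⟩, (two_points d_norm hA hB fun f hf => ?_).1, ?_⟩
  · rw [eq_bot_iff]
    intro f hf
    exact P0_inj f hf.1
  · rw [hK] at hf
    refine core f hf.1 ?_
    have h1 := L0_coord hm (pt (k + 2) 5 (-2) - f)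
    rw [map_sub, L0_pt] at h1
    have h2 := h1.trans hf.2
    rw [PiLp.sub_apply, pt_zero] at h2
    nlinarith
  · refine not_regularizes (f := pt (k + 2) (77 / 50) (3 / 50)) ?_ ?_
    · rw [pt_P0, pt_P0]; norm_num
    · rw [L0_pt, L0_pt, pt_sub, pt_sub]
      rcases Nat.lt_or_ge m 2 with h | h
      · obtain rfl : m = 1 := by omega
        rw [pt_sq_one, pt_sq_one]; norm_num
      · obtain ⟨j, rfl⟩ : ∃ j, m = j + 2 := ⟨m - 2, by omega⟩
        rw [pt_sq, pt_sq]; norm_num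

theorem exampleC (k m : ℕ) (hm : k + 2 ≤ m) :
    (consistent (LinearMap.id : R (k + 2) →ₗ[ℝ] R (k + 2)) (L0 (k + 2) m ∘ₗ P0 k) 5 (√68)
      (-((L0 (k + 2) m ∘ₗ P0 k) (pt (k + 2) 5 (-2))))).Nonempty ∧
    IsChebyshevCenter (consistent (LinearMap.id : R (k + 2) →ₗ[ℝ] R (k + 2))
      (L0 (k + 2) m ∘ₗ P0 k) 5 (√68) (-((L0 (k + 2) m ∘ₗ P0 k) (pt (k + 2) 5 (-2)))))
      (pt (k + 2) (3 / 2 - 5) 2) ∧
    ¬ Regularizes (LinearMap.id : R (k + 2) →ₗ[ℝ] R (k + 2)) (L0 (k + 2) m ∘ₗ P0 k)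
      (-((L0 (k + 2) m ∘ₗ P0 k) (pt (k + 2) 5 (-2)))) (pt (k + 2) (3 / 2 - 5) 2) := by
  have hn : ∀ f : R (k + 2), ‖-((L0 (k + 2) m ∘ₗ P0 k) (pt (k + 2) 5 (-2))) -
      (L0 (k + 2) m ∘ₗ P0 k) f‖ = ‖P0 k (f + pt (k + 2) 5 (-2))‖ := fun f => by
    rw [← neg_add', norm_neg, ← map_add, LinearMap.comp_apply, L0_ge hm, add_comm (pt (k + 2) 5 (-2)) f]
  have hK : ∀ f, f ∈ consistent (LinearMap.id : R (k + 2) →ₗ[ℝ] R (k + 2))
      (L0 (k + 2) m ∘ₗ P0 k) 5 (√68) (-((L0 (k + 2) m ∘ₗ P0 k) (pt (k + 2) 5 (-2)))) ↔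
      ‖f‖ ^ 2 ≤ 25 ∧ ‖P0 k (f + pt (k + 2) 5 (-2))‖ ^ 2 ≤ 68 := fun f => by
    refine and_congr ?_ ?_
    · rw [show (25 : ℝ) = 5 ^ 2 by norm_num, sq_le_sq₀ (norm_nonneg _) (by norm_num)]; rfl
    · rw [hn, Real.le_sqrt (norm_nonneg _) (by norm_num)]
  have hA : pt (k + 2) (3 / 2 - 5) 2 + pt (k + 2) (-(3 / 2)) (-2) ∈
      consistent (LinearMap.id : R (k + 2) →ₗ[ℝ] R (k + 2))
      (L0 (k + 2) m ∘ₗ P0 k) 5 (√68) (-((L0 (k + 2) m ∘ₗ P0 k) (pt (k + 2) 5 (-2)))) := by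
    rw [hK, pt_add, pt_add, pt_P0, pt_sq]
    norm_num
  have hB : pt (k + 2) (3 / 2 - 5) 2 - pt (k + 2) (-(3 / 2)) (-2) ∈
      consistent (LinearMap.id : R (k + 2) →ₗ[ℝ] R (k + 2))
      (L0 (k + 2) m ∘ₗ P0 k) 5 (√68) (-((L0 (k + 2) m ∘ₗ P0 k) (pt (k + 2) 5 (-2)))) := by
    rw [hK, pt_sub, pt_add, pt_P0, pt_sq]
    norm_num
  refine ⟨⟨_, hA⟩, (two_points d_norm hA hB fun f hf => ?_).1, ?_⟩
  · rw [hK] at hf
    have h1 : f - pt (k + 2) (3 / 2 - 5) 2 =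
        (f + pt (k + 2) 5 (-2)) - pt (k + 2) (3 / 2) 0 := by
      have : pt (k + 2) (3 / 2 - 5) 2 + pt (k + 2) 5 (-2) = pt (k + 2) (3 / 2) 0 := by
        rw [pt_add]; norm_num
      rw [← this]; abel
    rw [h1]
    refine core _ hf.2 ?_
    have h2 := hf.1
    rw [sq_split] at h2
    have hG : 0 ≤ ∑ j : Fin k, f j.succ.succ ^ 2 := by positivity
    rw [PiLp.add_apply, pt_zero]
    nlinarith [sq_nonneg (f 1)]
  · refine not_regularizes (f := pt (k + 2) (77 / 50 - 5) (3 / 50 + 2)) ?_ ?_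
    · rw [LinearMap.id_apply, LinearMap.id_apply, pt_sq, pt_sq]; norm_num
    · rw [hn, hn, pt_add, pt_add, pt_P0, pt_P0]; norm_num

theorem L0_adjoint {n m : ℕ} (h : m ≤ n) : Coisometric (L0 n m) := by
  obtain ⟨j, rfl⟩ := Nat.exists_eq_add_of_le h
  refine ⟨L0 m (m + j), fun x y => ?_, fun x => ?_⟩
  · simp only [PiLp.inner_apply]
    rw [Fin.sum_univ_add]
    simp only [L0, LinearMap.coe_mk, AddHom.coe_mk, Fin.val_castAdd, Fin.val_natAdd, Fin.is_lt,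
      dite_true, Fin.eta]
    simp
    refine Finset.sum_congr rfl fun i _ => ?_
    rw [dif_pos (by omega)]
    rfl
  · ext i
    have hi : (i : ℕ) < m + j := by omega
    simp [L0, hi]

/-- The statement of Q1 for real Hilbert spaces of dimension `N` and `m` observations, restricted to
the pairs `(P, Λ)` in the class `C`. -/
def Q1For (N m : ℕ) (C : (R N →ₗ[ℝ] R N) → (R N →ₗ[ℝ] R m) → Prop) : Prop :=
  ∀ (P : R N →ₗ[ℝ] R N) (Λ : R N →ₗ[ℝ] R m) (ε η : ℝ) (y : R m), C P Λ → Q1Holds P Λ ε η y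

/-- In every finite-dimensional real Hilbert space, if `P` is isometric, `Λ` is not injective and
`K_{y,E}` is nonempty, then the element `z` of smallest norm of `{f : ‖y - Λ f‖ ≤ η}` is the unique
Chebyshev center of `K_{y,E}`, the radius is `√(ε² - ‖z‖²)` and `z` minimises some `F_τ`. -/
def IsometricCase : Prop :=
  ∀ (H : Type) [NormedAddCommGroup H] [InnerProductSpace ℝ H] [FiniteDimensional ℝ H] (m : ℕ)
    (P : H →ₗ[ℝ] H) (Λ : H →ₗ[ℝ] R m) (ε η : ℝ) (y : R m), (∀ f, ‖P f‖ = ‖f‖) →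
    LinearMap.ker Λ ≠ ⊥ → (consistent P Λ ε η y).Nonempty →
    ∃ z, IsMinNorm Λ η y z ∧ IsUniqueCenter (consistent P Λ ε η y) z ∧
      radius (consistent P Λ ε η y) z = √(ε ^ 2 - ‖z‖ ^ 2) ∧ Regularizes P Λ y z

theorem small {N m : ℕ} (hN : N ≤ 1) (C : (R N →ₗ[ℝ] R N) → (R N →ₗ[ℝ] R m) → Prop) :
    Q1For N m C := by
  intro P Λ ε η y _ _ _ _ hne z hz
  interval_cases N
  · exact ⟨0, le_rfl, zero_le_one, fun f => by rw [Subsingleton.elim f z]⟩
  · exact oneDim P Λ ε η y hne z hz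

/-- **When is the Chebyshev center a regularizer?**  (1) For real Hilbert spaces `H` of dimension `N`
and `m ≥ 1` observations the answer to Q1 is positive for all data iff `N ≤ 1`.  (2) For
`1 ≤ m ≤ N` it is positive for all data with `Λ Λ* = Id` iff `N ≤ 1`.  (3) For `m ≥ 1` it is
positive for all data with `P = Id` (an orthogonal projection) iff `N ≤ 1` or `m < N`.
(4) In every finite-dimensional `H`, if `P` is isometric and `Λ` is not injective then the element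
`z` of smallest norm of `{f : ‖y - Λ f‖ ≤ η}` is the unique Chebyshev center of `K_{y,E}`, the
radius is `√(ε² - ‖z‖²)`, and `z` minimises `F_τ` for some `τ ∈ [0, 1]`. -/
theorem result :
    (∀ N m : ℕ, 1 ≤ m → (Q1For N m (fun _ _ => True) ↔ N ≤ 1)) ∧
    (∀ N m : ℕ, 1 ≤ m → m ≤ N →
      (Q1For N m (fun _ Λ => Coisometric Λ) ↔ N ≤ 1)) ∧
    (∀ N m : ℕ, 1 ≤ m → (Q1For N m (fun P _ => P = LinearMap.id) ↔ (N ≤ 1 ∨ m < N))) ∧
    IsometricCase := by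
  refine ⟨fun N m hm => ⟨fun h => ?_, fun h => small h _⟩,
    fun N m hm hmN => ⟨fun h => ?_, fun h => small h _⟩,
    fun N m hm => ⟨fun h => ?_, fun h => ?_⟩, ?_⟩
  · by_contra hN
    obtain ⟨k, rfl⟩ : ∃ k, N = k + 2 := ⟨N - 2, by omega⟩
    obtain ⟨h1, h2, h3, h4⟩ := exampleA k m hm
    exact h4 (h _ _ _ _ _ trivial (by positivity) (by norm_num) h1 h2 _ h3)
  · by_contra hN
    obtain ⟨k, rfl⟩ : ∃ k, N = k + 2 := ⟨N - 2, by omega⟩
    obtain ⟨h1, h2, h3, h4⟩ := exampleA k m hm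
    exact h4 (h _ _ _ _ _ (L0_adjoint hmN) (by positivity) (by norm_num) h1 h2 _ h3)
  · by_contra hN
    obtain ⟨k, rfl⟩ : ∃ k, N = k + 2 := ⟨N - 2, by omega⟩
    obtain ⟨h2, h3, h4⟩ := exampleC k m (by omega)
    refine h4 (h _ _ _ _ _ rfl (by norm_num) (by positivity) ?_ h2 _ h3)
    rw [LinearMap.ker_id, bot_inf_eq]
  · rcases h with h | h
    · exact small h _
    · intro P Λ ε η y hP _ _ _ hne z hz
      subst hP
      have hker : LinearMap.ker Λ ≠ ⊥ := by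
        refine LinearMap.ker_ne_bot_of_finrank_lt ?_
        simpa using h
      obtain ⟨z', -, ⟨-, h4⟩, -, h5⟩ := isometric (fun _ => rfl) hker hne
      rw [h4 z hz]
      exact h5
  · intro H _ _ _ m P Λ ε η y hP hΛ hne
    exact isometric hP hΛ hne

end Pool.Agent.Results.MP_ef9ba3_an.DimensionClassification
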